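import Pool.Agent.Lib.MP_835627_lc.Main

/-!
# MP_835627_lc: a context-free EDT0L language that is not of finite index

The language `treeLanguage` over the letters `a, b, c, d` is context-free and EDT0L, and for every
context-free grammar generating it and every `k` the word `tree (stem (k + 1) p)` has, for all
large `p`, no derivation in which all sentential forms have at most `k` nonterminals.
-/

set_option autoImplicit false

namespace Pool.Agent.Results.MP_835627_lc.SynchronisedTrees

open Pool.Agent.Lib.MP835627
open Al Fr

/-! ### EDT0L systems -/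

/-- An EDT0L system with terminal alphabet `Δ`: a finite alphabet `Sig` containing `Δ` (through the
injection `incl`), a finite nonempty set of tables, each of which replaces every letter by one
word, and a nonempty axiom. -/
structure EDT0LSystem (Δ : Type) where
  Sig : Type
  finite_Sig : Finite Sig
  incl : Δ → Sig
  incl_injective : Function.Injective incl
  tables : Finset (Sig → List Sig)
  tables_nonempty : tables.Nonempty
  start : List Sig
  start_ne_nil : start ≠ []

/-- One derivation step: one table is applied to all letters of the word. -/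
def EDT0LSystem.Step {Δ : Type} (S : EDT0LSystem Δ) (u v : List S.Sig) : Prop :=
  ∃ h ∈ S.tables, v = u.flatMap h

/-- The words over the terminal alphabet obtained from the axiom in finitely many steps. -/
def EDT0LSystem.language {Δ : Type} (S : EDT0LSystem Δ) : Language Δ :=
  {w | Relation.ReflTransGen S.Step S.start (w.map S.incl)}

/-- `L` is an EDT0L language. -/
def IsEDT0L {Δ : Type} (L : Language Δ) : Prop := ∃ S : EDT0LSystem Δ, S.language = L

/-! ### Finite index -/

/-- Number of occurrences of nonterminals in a sentential form. -/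
def nonterminals {T N : Type} : List (Symbol T N) → ℕ
  | [] => 0
  | Symbol.terminal _ :: u => nonterminals u
  | Symbol.nonterminal _ :: u => nonterminals u + 1

/-- `w` has a derivation in `G` all of whose sentential forms contain at most `k` occurrences of
nonterminals. -/
def DerivableWithIndex {T : Type} (G : ContextFreeGrammar T) (k : ℕ) (w : List T) : Prop :=
  ∃ D : List (List (Symbol T G.NT)),
    D.head? = some [Symbol.nonterminal G.initial] ∧
    D.getLast? = some (w.map Symbol.terminal) ∧
    D.IsChain G.Produces ∧ ∀ u ∈ D, nonterminals u ≤ k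

/-- `L` is generated by a context-free grammar of index `k` for some `k`. -/
def HasFiniteIndex {T : Type} (L : Language T) : Prop :=
  ∃ (G : ContextFreeGrammar T) (k : ℕ), G.language = L ∧ ∀ w ∈ L, DerivableWithIndex G k w

/-! ### The language -/

/-- The word of a perfectly synchronised tree; its levels are given by a list, `true` for a
branching level and `false` for a unary level. -/
def tree : List Bool → List Al
  | [] => [c]
  | true :: x => [a] ++ tree x ++ [d] ++ tree x ++ [a]
  | false :: x => [b] ++ tree x ++ [b]

/-- The words of the synchronised trees, and all words with a mismatch: a factor `s u d v t` with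
`|u| = |v|`, `u, v ∈ {a, b}^*` and letters `s ≠ t`. -/
def treeLanguage : Language Al :=
  {w | (∃ x, w = tree x) ∨
    ∃ (α u v β : List Al) (s t : Al), w = α ++ [s] ++ u ++ [d] ++ v ++ [t] ++ β ∧
      u.length = v.length ∧ (∀ x ∈ u, x = a ∨ x = b) ∧ (∀ x ∈ v, x = a ∨ x = b) ∧ s ≠ t}

/-- `m` branching levels, each of them after `p` unary levels, and `p` unary levels at the end. -/
def stem : ℕ → ℕ → List Bool
  | 0, p => List.replicate p false
  | m + 1, p => List.replicate p false ++ [true] ++ stem m p

/-! ### Translation to the library -/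

lemma tree_eq (x : List Bool) : tree x = tau x := by
  induction x with
  | nil => rfl
  | cons y x ih => cases y <;> simp [tree, tau, ih]

lemma stem_eq (m p : ℕ) : stem m p = xg m (fun _ => p) := by
  induction m with
  | zero => rfl
  | succ m ih => simp [stem, xg, ih]

lemma treeLanguage_eq : treeLanguage = Lg := by
  ext w
  change ((∃ x, w = tree x) ∨ _) ↔ (InD w ∨ ∃ x, w = tau x)
  rw [or_comm]
  refine or_congr ?_ (by simp only [tree_eq])
  constructor
  · rintro ⟨α, u, v, β, s, t, h, h1, h2, h3, h4⟩
    exact ⟨α, u, v, β, s, t, by simpa using h, h1, h2, h3, h4⟩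
  · rintro ⟨α, u, v, β, s, t, h, h1, h2, h3, h4⟩
    exact ⟨α, u, v, β, s, t, by simpa using h, h1, h2, h3, h4⟩

/-- The EDT0L system of the language. -/
def system : EDT0LSystem Al where
  Sig := Sy
  finite_Sig := inferInstance
  incl := te
  incl_injective := fun _ _ h => Symbol.terminal.inj h
  tables := tables.toFinset
  tables_nonempty := by
    refine ⟨tab ⟨Nt.E, []⟩, List.mem_toFinset.2 (List.mem_map_of_mem ?_)⟩
    rw [mem_ruleList]
    simp
  start := [nt Nt.S]
  start_ne_nil := by simp

lemma mem_system_tables (g : Sy → List Sy) : g ∈ system.tables ↔ g ∈ tables := by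
  change g ∈ tables.toFinset ↔ _
  exact List.mem_toFinset

lemma reach_iff_steps (u v : List Sy) :
    Reach u v ↔ Relation.ReflTransGen system.Step u v := by
  constructor
  · rintro ⟨sq, h1, rfl⟩
    induction sq generalizing u with
    | nil => exact Relation.ReflTransGen.refl
    | cons g sq ih =>
      rw [List.foldl_cons]
      exact (Relation.ReflTransGen.single
        (⟨g, (mem_system_tables g).2 (h1 g (by simp)), rfl⟩ : system.Step u (u.flatMap g))).trans
          (ih _ (fun h hh => h1 h (by simp [hh])))
  · intro h
    induction h with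
    | refl => exact Reach.refl u
    | @tail x y _ hxy ih =>
      obtain ⟨g, hg, rfl⟩ := hxy
      exact ih.trans ⟨[g], fun h hh => by
        rw [List.mem_singleton.1 hh]; exact (mem_system_tables g).1 hg, rfl⟩

lemma isEDT0L : IsEDT0L treeLanguage := by
  refine ⟨system, ?_⟩
  rw [treeLanguage_eq]
  ext w
  exact (reach_iff_steps _ _).symm.trans (reach_iff w).symm

lemma isContextFree : treeLanguage.IsContextFree := by
  rw [treeLanguage_eq]
  exact ⟨G0, cf_iff⟩

lemma nonterminals_eq {G : ContextFreeGrammar Al} (u : List (Symbol Al G.NT)) :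
    nonterminals u = nn u := by
  induction u with
  | nil => rfl
  | cons x u ih => cases x <;> simp [nonterminals, nn, ih]

lemma steps_of_derivable {G : ContextFreeGrammar Al} {k : ℕ} {w : List Al}
    (h : DerivableWithIndex G k w) :
    Relation.ReflTransGen
      (fun u v : List (Symbol Al G.NT) =>
        G.Produces u v ∧
          {i : Fin v.length | ∃ n : G.NT, v.get i = Symbol.nonterminal n}.ncard ≤ k)
      [Symbol.nonterminal G.initial] (w.map Symbol.terminal) := by
  obtain ⟨D, h1, h2, h3, h4⟩ := h
  generalize [Symbol.nonterminal G.initial] = u at h1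
  induction D generalizing u with
  | nil => simp at h1
  | cons x D ih =>
    simp only [List.head?_cons, Option.some.injEq] at h1
    subst h1
    cases D with
    | nil =>
      simp only [List.getLast?_singleton, Option.some.injEq] at h2
      rw [h2]
    | cons y D =>
      rw [List.isChain_cons_cons] at h3
      refine Relation.ReflTransGen.head ⟨h3.1, ?_⟩
        (ih (by simpa using h2) h3.2 (fun u hu => h4 u (List.mem_cons_of_mem _ hu)) y rfl)
      rw [ncard_eq_nn, ← nonterminals_eq]
      exact h4 y (by simp)

/-! ### The lower bound -/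

variable {G : ContextFreeGrammar Al}

theorem no_infinite (hG : G.language = Lg) (k : ℕ) (B : Set ℕ) (hB : B.Infinite)
    (hidx : ∀ p ∈ B,
      Relation.ReflTransGen
        (fun u v : List (Symbol Al G.NT) =>
          G.Produces u v ∧
            {i : Fin v.length | ∃ n : G.NT, v.get i = Symbol.nonterminal n}.ncard ≤ k)
        [Symbol.nonterminal G.initial] ((tau (xg (k + 1) fun _ => p)).map Symbol.terminal)) :
    False := by
  classical
  set m := k + 1 with hm
  set sp := seps m with hsp
  have hlen : sp.length = ln m := seps_length m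
  set φ : ℕ → ℕ := Nat.nth (· ∈ B) with hφ
  have hφm : StrictMono φ := Nat.nth_strictMono hB
  have hφB : ∀ n, φ n ∈ B := fun n => Nat.nth_mem_of_infinite hB n
  -- forests
  have hforest : ∀ n : ℕ, ∃ ch : FF G,
      VF sp 0 (node (G.initial, 0, ln m) ch nil : FF G) (ln m) ∧
      (vec 0 (node (G.initial, 0, ln m) ch nil : FF G) =
        fun i => if i ≤ ln m then φ n else 0) ∧
      h1 (node (G.initial, 0, ln m) ch nil : FF G) ≤ m := by
    intro n
    have hd : Dg m 0 (fun _ => φ n) (fun _ => φ n) := Dg_const (φ n) m 0
    have hst := hidx (φ n) (hφB n)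
    rw [← aw_eq_tau hd] at hst
    have hRd := Rd_aw (seps_ne_b m) sp 0 (fun _ => φ n) (List.drop_zero) (Nat.zero_le _)
    obtain ⟨f, hf1, hf2, hf3, hf4⟩ := forest_of_index (K := m) (by omega) hst
      (by simp [nn]; omega) hRd
    cases f with
    | nil => simp [roots] at hf1
    | term t r => simp [roots] at hf1
    | node q ch r =>
      rw [roots_node, List.cons.injEq] at hf1
      obtain ⟨hq, hr⟩ := hf1
      have hr' : r = nil := by
        cases r with
        | nil => rfl
        | term t r => simp [roots] at hr
        | node q' ch' r' => simp [roots] at hr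
      subst hr'
      obtain ⟨A, x, y⟩ := q
      obtain ⟨h1', h2', h3', h4'⟩ := hf2
      have hA : A = G.initial := Symbol.nonterminal.inj hq
      have hx : x = 0 := h1'
      have hy : y = ln m := by rw [← hlen]; exact h4'
      subst hA hx hy
      refine ⟨ch, ⟨rfl, h2', h3', rfl⟩, ?_, h1_le_of_cnt hf4⟩
      rw [hf3, ← hsp]
      ext i
      simp [hlen]
  choose ch hch1 hch2 hch3 using hforest
  obtain ⟨L, hL⟩ : ∃ L, ∀ r ∈ G.rules, r.output.length ≤ L :=
    ⟨G.rules.sup (fun r => r.output.length), fun r hr => Finset.le_sup (f := fun r :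
      ContextFreeRule Al G.NT => r.output.length) hr⟩
  have hkr := kruskal (T := Al) (PL_finite (G := G) (ln m)) L
  rw [Set.partiallyWellOrderedOn_iff_exists_lt] at hkr
  obtain ⟨i, j, hij, c, hc1, hc2⟩ := hkr (fun p => ((G.initial, 0, ln m), ch p)) (by
    intro p
    have h1 := Bd_of_VF hL (hch1 p) le_rfl
    exact ⟨h1.1, h1.2.1, h1.2.2.1⟩)
  have hij' : φ i < φ j := hφm hij
  simp only at hc1 hc2
  have hem : Em (node (G.initial, 0, ln m) (ch i) nil : FF G)
      (node (G.initial, 0, ln m) (ch j) nil) := Em.node _ hc1 hc2 Em.nil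
  obtain ⟨Ps, hp1, hp2, hp3⟩ := pump_of_em hem (hch1 i) (hch1 j)
  rw [hch2 i, hch2 j] at hp2
  rw [hch2 i] at hp3
  have hdata : Data m Ps (fun s => if s ≤ ln m then φ i else 0) (φ i) (φ j - φ i) := by
    refine ⟨?_, by omega, ?_, ?_, ?_, ?_, ?_⟩
    · intro s hs; simp [hs]
    · intro s hs
      have := congrFun hp2 s
      simp only [Pi.add_apply, hs, if_true] at this
      omega
    · intro q hq
      obtain ⟨⟨A, c', hc'⟩, _⟩ := hp1 q hq
      have := (hch1 i).ctx hc'
      exact ⟨this.1.le, this.2.2.1⟩
    · intro q hq s hs
      exact (hp1 q hq).2 s hs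
    · intro u hu hPc
      obtain ⟨w, hw1, hw2⟩ := hp3 u hu
      rw [← hlen] at hw2
      have hw3 := eq_aw_of_Rd hw2
      rw [List.drop_zero] at hw3
      have hw4 : w ∈ G.language := hw1
      rw [hG, hw3] at hw4
      rw [hlen] at hw4
      exact diag_of_mem hw4 hPc
    · intro q hq q' hq'
      obtain ⟨⟨A, c', hc'⟩, _⟩ := hp1 q hq
      obtain ⟨⟨A2, c2, hc2⟩, _⟩ := hp1 q' hq'
      exact (hch1 i).noncross hc' hc2
  have hkey := key hdata
  have hall : ∀ p ∈ ND m 0, In p.1 p.2 (node (G.initial, 0, ln m) (ch i) nil : FF G) := by
    intro p hp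
    obtain ⟨i', j', hi', hj', rfl⟩ := ND_nodes m p hp
    obtain ⟨q, hq, hq1, hq2⟩ := hkey i' hi' j' hj'
    obtain ⟨⟨A, c', hc'⟩, _⟩ := hp1 q hq
    rw [hq1, hq2] at hc'
    exact ⟨A, c', hc'⟩
  have hbig := claim m _ _ _ _ (hch1 i) hall
  have hsmall := hch3 i
  omega

lemma large (hG : G.language = treeLanguage) (k : ℕ) :
    ∃ p₀ : ℕ, ∀ p ≥ p₀, ¬ DerivableWithIndex G k (tree (stem (k + 1) p)) := by
  by_contra hc
  push Not at hc
  refine no_infinite (hG.trans treeLanguage_eq) k
    {p | DerivableWithIndex G k (tree (stem (k + 1) p))} ?_ ?_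
  · rw [Set.infinite_iff_exists_gt] 
    intro n
    obtain ⟨p, hp, h⟩ := hc (n + 1)
    exact ⟨p, h, by omega⟩
  · intro p hp
    have h := steps_of_derivable hp
    rwa [tree_eq, stem_eq] at h

/-- The language `treeLanguage` is an EDT0L language and context-free, but not of finite index: for
every context-free grammar `G` that generates it and every `k`, for all large `p` the word
`tree (stem (k + 1) p)` of the language has no derivation in `G` in which all sentential forms
contain at most `k` nonterminals. -/
theorem result :
    IsEDT0L treeLanguage ∧ treeLanguage.IsContextFree ∧ ¬ HasFiniteIndex treeLanguage ∧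
    (∀ G : ContextFreeGrammar Al, G.language = treeLanguage → ∀ k : ℕ, ∃ p₀ : ℕ, ∀ p ≥ p₀,
      ¬ DerivableWithIndex G k (tree (stem (k + 1) p))) ∧
    ∀ x : List Bool, tree x ∈ treeLanguage := by
  refine ⟨isEDT0L, isContextFree, ?_, fun G hG k => large hG k, fun x => Or.inl ⟨x, rfl⟩⟩
  rintro ⟨G, k, hG, h⟩
  obtain ⟨p₀, hp⟩ := large hG k
  exact hp p₀ le_rfl (h _ (Or.inl ⟨_, rfl⟩))

end Pool.Agent.Results.MP_835627_lc.SynchronisedTrees
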